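import Mathlib

open MeasureTheory Filter Topology

namespace Pool.Agent.Results.MP_12ef09_al.AbelianCounterexample

/-- The vertices of level `k` of the spherically homogeneous rooted tree with branching sequence
`m`: words of length `k` whose `i`-th letter lies in `Fin (m i)`. -/
abbrev Level (m : ℕ → ℕ) (k : ℕ) : Type := (i : Fin k) → Fin (m i)

/-- The parent of a vertex of level `k + 1`: delete the last letter. -/
def parent (m : ℕ → ℕ) (k : ℕ) (v : Level m (k + 1)) : Level m k := fun i => v i.castSucc

/-- The permutations of a (finite) level carry the discrete topology. -/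
instance permTop (m : ℕ → ℕ) (k : ℕ) : TopologicalSpace (Equiv.Perm (Level m k)) := ⊥

instance permDisc (m : ℕ → ℕ) (k : ℕ) : DiscreteTopology (Equiv.Perm (Level m k)) := ⟨rfl⟩

/-- The family `σ` of permutations of the levels commutes with the parent maps. -/
def Compat (m : ℕ → ℕ) (σ : (k : ℕ) → Equiv.Perm (Level m k)) : Prop :=
  ∀ (k : ℕ) (v : Level m (k + 1)), parent m k (σ (k + 1) v) = σ k (parent m k v)

theorem Compat.mul {m : ℕ → ℕ} {a b : (k : ℕ) → Equiv.Perm (Level m k)}
    (ha : Compat m a) (hb : Compat m b) : Compat m (a * b) := by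
  intro k v
  have h1 := ha k (b (k + 1) v)
  have h2 := hb k v
  simp only [Pi.mul_apply, Equiv.Perm.mul_apply]
  rw [h1, h2]

theorem Compat.one (m : ℕ → ℕ) : Compat m 1 := by
  intro k v
  rfl

theorem Compat.inv {m : ℕ → ℕ} {a : (k : ℕ) → Equiv.Perm (Level m k)}
    (ha : Compat m a) : Compat m a⁻¹ := by
  intro k v
  have h1 := ha k ((a (k + 1)).symm v)
  rw [Equiv.apply_symm_apply] at h1
  change parent m k ((a (k + 1)).symm v) = (a k).symm (parent m k v)
  rw [h1, Equiv.symm_apply_apply]

/-- `Aut(T)`: the families of permutations of the levels that commute with the parent maps, as a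
subgroup of the product of the symmetric groups of the levels (with the product topology). -/
def TreeAut (m : ℕ → ℕ) : Subgroup ((k : ℕ) → Equiv.Perm (Level m k)) where
  carrier := {σ | Compat m σ}
  mul_mem' := Compat.mul
  one_mem' := Compat.one m
  inv_mem' := Compat.inv

/-- The group `Aut(T)` as a type. -/
def AutT (m : ℕ → ℕ) : Type := TreeAut m

instance AutT.group (m : ℕ → ℕ) : Group (AutT m) := inferInstanceAs (Group (TreeAut m))

/-- The topology of `Aut(T)`: induced from the product of the discrete groups `Sym(L_k)`. -/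
instance AutT.topology (m : ℕ → ℕ) : TopologicalSpace (AutT m) :=
  inferInstanceAs (TopologicalSpace (TreeAut m))

instance AutT.topologicalGroup (m : ℕ → ℕ) : IsTopologicalGroup (AutT m) :=
  inferInstanceAs (IsTopologicalGroup (TreeAut m))

instance AutT.t2 (m : ℕ → ℕ) : T2Space (AutT m) :=
  inferInstanceAs (T2Space (TreeAut m))

/-- The permutation `π_k(σ)` of level `k` induced by `σ ∈ Aut(T)`. -/
def act (m : ℕ → ℕ) (k : ℕ) (σ : AutT m) : Equiv.Perm (Level m k) := Subtype.val σ k

/-- The finite set `π_k(H)` of permutations of level `k` induced by elements of `H`. -/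
def levelImage (m : ℕ → ℕ) (H : Subgroup (AutT m)) (k : ℕ) : Set (Equiv.Perm (Level m k)) :=
  {τ | ∃ σ ∈ H, act m k σ = τ}

/-- `p_k(H)`: the proportion of elements of `π_k(H)` that fix at least one vertex of level `k`. -/
noncomputable def fixProp (m : ℕ → ℕ) (H : Subgroup (AutT m)) (k : ℕ) : ℝ :=
  (Set.ncard {τ ∈ levelImage m H k | ∃ v : Level m k, τ v = v} : ℝ) /
    (Set.ncard (levelImage m H k) : ℝ)

/-- `H` has fixed-point proportion `c`: the sequence `p_k(H)` converges to `c`. -/
def HasFPP (m : ℕ → ℕ) (H : Subgroup (AutT m)) (c : ℝ) : Prop :=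
  Tendsto (fixProp m H) atTop (𝓝 c)

/-- `H` has a positive fixed-point proportion. -/
def PosFPP (m : ℕ → ℕ) (H : Subgroup (AutT m)) : Prop :=
  ∃ c : ℝ, 0 < c ∧ HasFPP m H c

/-- `G` acts transitively on every level. -/
def LevelTransitive (m : ℕ → ℕ) (G : Subgroup (AutT m)) : Prop :=
  ∀ (k : ℕ) (v w : Level m k), ∃ σ ∈ G, act m k σ v = w

/-- The subgroup of `Aut(T)` generated by the tuple `g` of elements of `G`. -/
def gen (m : ℕ → ℕ) (G : Subgroup (AutT m)) (n : ℕ) (g : Fin n → G) : Subgroup (AutT m) :=
  Subgroup.closure (Set.range fun i => (g i : AutT m))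

/-- With respect to the product of `n` copies of the Haar probability measure (on the Borel sets)
of the topological group `G`, the set of `n`-tuples satisfying `P` has measure `1`. -/
def HaarFullMeasure {G : Type} [Group G] [TopologicalSpace G] (n : ℕ)
    (P : (Fin n → G) → Prop) : Prop :=
  ∃ (_ : MeasurableSpace G) (_ : BorelSpace G) (μ : Measure G),
    μ.IsHaarMeasure ∧ IsProbabilityMeasure μ ∧ (Measure.pi fun _ : Fin n => μ) {g | P g} = 1

/-! ### The example: translations of the binary tree -/

/-- The constant branching sequence `2`. -/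
abbrev two : ℕ → ℕ := fun _ => 2

/-- restriction of an infinite binary word to level `k`. -/
def res (k : ℕ) (a : ℕ → Fin 2) : Level two k := fun i => a i

/-- translation by `a`. -/
def transl (a : ℕ → Fin 2) : TreeAut two :=
  ⟨fun k => Equiv.addRight (res k a), by
    intro k v
    rfl⟩

/-- The homomorphism `(ℤ/2)^ℕ → Aut(T)` given by translations. -/
def φ : Multiplicative (ℕ → Fin 2) →* AutT two where
  toFun a := transl a.toAdd
  map_one' := by
    apply Subtype.ext
    funext k
    apply Equiv.ext
    intro v
    change v + res k 0 = v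
    funext i
    simp [res]
  map_mul' a b := by
    apply Subtype.ext
    funext k
    apply Equiv.ext
    intro v
    change v + res k (a.toAdd + b.toAdd) = (v + res k b.toAdd) + res k a.toAdd
    funext i
    simp [res, add_comm, add_left_comm]

theorem φ_level (a : Multiplicative (ℕ → Fin 2)) (k : ℕ) (v : Level two k) :
    act two k (φ a) v = v + res k a.toAdd := rfl

theorem continuous_φ : Continuous (fun a : ℕ → Fin 2 => φ (Multiplicative.ofAdd a)) := by
  apply Continuous.subtype_mk
  apply continuous_pi
  intro k
  change Continuous ((fun b : (Fin k → Fin 2) => (Equiv.addRight (b : Level two k) :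
    Equiv.Perm (Level two k))) ∘ (fun a : ℕ → Fin 2 => (fun i : Fin k => a i)))
  apply Continuous.comp
  · exact continuous_of_discreteTopology
  · fun_prop

theorem compact_range : IsCompact (φ.range : Set (AutT two)) := by
  have : (φ.range : Set (AutT two)) = Set.range (fun a : ℕ → Fin 2 => φ (Multiplicative.ofAdd a)) := by
    ext x
    constructor
    · rintro ⟨a, rfl⟩
      exact ⟨a.toAdd, rfl⟩
    · rintro ⟨a, rfl⟩
      exact ⟨Multiplicative.ofAdd a, rfl⟩
  rw [this]
  exact _root_.isCompact_range continuous_φ

/-- elements of `π_k(G)` with a fixed vertex are trivial. -/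
theorem eq_one_of_fixed {H : Subgroup (AutT two)} (hH : H ≤ φ.range) (k : ℕ)
    (τ : Equiv.Perm (Level two k)) (hτ : τ ∈ levelImage two H k) (v : Level two k)
    (hv : τ v = v) : τ = 1 := by
  obtain ⟨σ, hσ, rfl⟩ := hτ
  obtain ⟨a, rfl⟩ := hH hσ
  rw [φ_level] at hv
  have h0 : res k a.toAdd = 0 := by simpa using hv
  apply Equiv.ext
  intro w
  rw [φ_level, h0]
  simp

theorem fixProp_eq {H : Subgroup (AutT two)} (hH : H ≤ φ.range) (k : ℕ) :
    fixProp two H k = 1 / (Set.ncard (levelImage two H k) : ℝ) := by
  unfold fixProp
  congr 1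
  have : {τ ∈ levelImage two H k | ∃ v : Level two k, τ v = v} = {1} := by
    ext τ
    constructor
    · rintro ⟨hτ, v, hv⟩
      exact eq_one_of_fixed hH k τ hτ v hv
    · rintro rfl
      exact ⟨⟨1, one_mem _, rfl⟩, 0, rfl⟩
  rw [this]
  simp

theorem card_level (k : ℕ) : 2 ^ k ≤ Set.ncard (levelImage two φ.range k) := by
  have h1 : Nat.card (Level two k) = 2 ^ k := by
    simp [Level, two]
  rw [← h1, ← Set.ncard_univ]
  let f : Level two k → Equiv.Perm (Level two k) := fun b =>
    act two k (φ (Multiplicative.ofAdd (fun i => if h : i < k then b ⟨i, h⟩ else 0)))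
  apply Set.ncard_le_ncard_of_injOn f
  · intro b _
    exact ⟨_, ⟨_, rfl⟩, rfl⟩
  · intro b _ c _ hbc
    have h2 : act two k (φ (Multiplicative.ofAdd (fun i => if h : i < k then b ⟨i, h⟩ else 0))) 0
        = act two k (φ (Multiplicative.ofAdd (fun i => if h : i < k then c ⟨i, h⟩ else 0))) 0 :=
      congrArg (fun τ : Equiv.Perm (Level two k) => τ 0) hbc
    rw [φ_level, φ_level] at h2
    funext i
    have h3 := congrFun h2 i
    simpa [res] using h3

theorem hasFPP_range : HasFPP two φ.range 0 := by
  unfold HasFPP
  have h1 : ∀ k, fixProp two φ.range k ≤ (1 / 2 : ℝ) ^ k := by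
    intro k
    rw [fixProp_eq le_rfl, one_div_pow]
    apply one_div_le_one_div_of_le (by positivity)
    exact_mod_cast card_level k
  have h0 : ∀ k, 0 ≤ fixProp two φ.range k := by
    intro k
    unfold fixProp
    positivity
  exact squeeze_zero h0 h1 (tendsto_pow_atTop_nhds_zero_of_lt_one (by norm_num) (by norm_num))

theorem level_mono (σ τ : AutT two) (k : ℕ) (h : act two (k + 1) σ = act two (k + 1) τ) :
    act two k σ = act two k τ := by
  apply Equiv.ext
  intro v
  let w : Level two (k + 1) := fun i => if h : i.1 < k then v ⟨i.1, h⟩ else 0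
  have hw : parent two k w = v := by
    funext i
    simp [parent, w]
  have h1 : parent two k (act two (k + 1) σ w) = act two k σ (parent two k w) := σ.2 k w
  have h2 : parent two k (act two (k + 1) τ w) = act two k τ (parent two k w) := τ.2 k w
  rw [hw] at h1 h2
  rw [← h1, ← h2, h]

theorem level_mono' (σ τ : AutT two) {k l : ℕ} (hkl : k ≤ l) (h : act two l σ = act two l τ) :
    act two k σ = act two k τ := by
  induction hkl with
  | refl => exact h
  | step _ ih => exact ih (level_mono σ τ _ h)

theorem finite_closure (n : ℕ) (g : Fin n → (φ.range : Subgroup (AutT two))) :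
    Finite (Subgroup.closure (Set.range fun i => (g i : AutT two))) := by
  classical
  choose a ha using fun i => (g i).2
  let a' : Fin n → (ℕ → ZMod 2) := fun i => (a i).toAdd
  let S : Submodule (ZMod 2) (ℕ → ZMod 2) := Submodule.span (ZMod 2) (Set.range a')
  have : Module.Finite (ZMod 2) S := Module.Finite.span_of_finite (ZMod 2) (Set.finite_range a')
  have hfin : Finite S := Module.finite_of_finite (ZMod 2)
  let K0 : Subgroup (Multiplicative (ℕ → Fin 2)) :=
    { carrier := {x | (x.toAdd : ℕ → ZMod 2) ∈ S}
      mul_mem' := fun {x y} hx hy => S.add_mem hx hy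
      one_mem' := S.zero_mem
      inv_mem' := fun {x} hx => S.neg_mem hx }
  have : Finite K0 := hfin
  have : Finite (K0.map φ) := by
    have : Set.Finite ((K0.map φ : Subgroup (AutT two)) : Set (AutT two)) := by
      rw [Subgroup.coe_map]
      exact Set.Finite.image _ (Set.toFinite _)
    exact this
  have hle : Subgroup.closure (Set.range fun i => (g i : AutT two)) ≤ K0.map φ := by
    rw [Subgroup.closure_le]
    rintro _ ⟨i, rfl⟩
    refine ⟨a i, ?_, ha i⟩
    have h5 : a' i ∈ S := Submodule.subset_span (Set.mem_range_self i)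
    exact h5
  exact Finite.of_injective (Subgroup.inclusion hle) (Subgroup.inclusion_injective hle)

theorem hasFPP_of_finite (H : Subgroup (AutT two)) (hH : H ≤ φ.range) [Finite H] :
    HasFPP two H (1 / (Nat.card H : ℝ)) := by
  classical
  have := Fintype.ofFinite H
  have hsep : ∀ p : H × H, ∃ k, p.1 ≠ p.2 →
      act two k (p.1 : AutT two) ≠ act two k (p.2 : AutT two) := by
    intro p
    by_cases hp : p.1 = p.2
    · exact ⟨0, fun h => absurd hp h⟩
    · by_contra hcon
      push Not at hcon
      apply hp
      apply Subtype.ext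
      apply Subtype.ext
      funext k
      exact (hcon k).2
  choose K hK using hsep
  let N := Finset.univ.sup K
  have hev : ∀ k, N ≤ k → fixProp two H k = 1 / (Nat.card H : ℝ) := by
    intro k hk
    rw [fixProp_eq hH]
    congr 2
    have hinj : Set.InjOn (act two k) (H : Set (AutT two)) := by
      intro σ hσ τ hτ hst
      by_contra hne
      have h1 := hK (⟨σ, hσ⟩, ⟨τ, hτ⟩) (by
        intro h
        exact hne (congrArg Subtype.val h))
      apply h1
      apply level_mono' σ τ (l := k)
      · exact le_trans (Finset.le_sup (f := K) (Finset.mem_univ _)) hk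
      · exact hst
    have h6 : Set.ncard (act two k '' (H : Set (AutT two))) = Set.ncard (H : Set (AutT two)) :=
      hinj.ncard_image
    have h7 : levelImage two H k = act two k '' (H : Set (AutT two)) := rfl
    rw [h7, h6]
    rfl
  apply tendsto_const_nhds.congr'
  filter_upwards [eventually_ge_atTop N] with k hk
  exact (hev k hk).symm

/-- Negative answer: there is a closed, level-transitive subgroup `G` of the automorphism group of
a spherically homogeneous rooted tree with `FPP(G) = 0` such that, for every `n ≥ 1`, for
`μ^n`-almost every `n`-tuple the generated subgroup has positive fixed-point proportion. -/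
theorem result :
    ∃ m : ℕ → ℕ, (∀ k, 2 ≤ m k) ∧ ∃ G : Subgroup (AutT m),
      IsClosed (G : Set (AutT m)) ∧ LevelTransitive m G ∧ HasFPP m G 0 ∧
      ∀ n : ℕ, 1 ≤ n → HaarFullMeasure n fun g : Fin n → G => PosFPP m (gen m G n g) := by
  refine ⟨two, fun _ => le_rfl, φ.range, compact_range.isClosed, ?_, hasFPP_range, ?_⟩
  · intro k v w
    refine ⟨φ (Multiplicative.ofAdd (fun i => if h : i < k then (w - v) ⟨i, h⟩ else 0)), ⟨_, rfl⟩, ?_⟩
    rw [φ_level]
    funext i
    simp [res]
  · intro n _
    let mG : MeasurableSpace (φ.range : Subgroup (AutT two)) := borel _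
    have bG : BorelSpace (φ.range : Subgroup (AutT two)) := ⟨rfl⟩
    have cG : CompactSpace (φ.range : Subgroup (AutT two)) :=
      isCompact_iff_compactSpace.mp compact_range
    have hprob : IsProbabilityMeasure (Measure.haarMeasure (⊤ : TopologicalSpace.PositiveCompacts
        (φ.range : Subgroup (AutT two)))) := ⟨by
      have := Measure.haarMeasure_self (K₀ := (⊤ : TopologicalSpace.PositiveCompacts
        (φ.range : Subgroup (AutT two))))
      simpa using this⟩
    refine ⟨mG, bG, Measure.haarMeasure ⊤, inferInstance, hprob, ?_⟩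
    have huniv : {g : Fin n → (φ.range : Subgroup (AutT two)) |
          PosFPP two (gen two φ.range n g)} = Set.univ := by
      rw [Set.eq_univ_iff_forall]
      intro g
      have hfin : Finite (gen two φ.range n g) := finite_closure n g
      refine ⟨_, ?_, hasFPP_of_finite _ ?_⟩
      · have : 0 < Nat.card (gen two φ.range n g) := Nat.card_pos
        positivity
      · unfold gen
        rw [Subgroup.closure_le]
        rintro _ ⟨i, rfl⟩
        exact (g i).2
    rw [huniv]
    exact measure_univ

end Pool.Agent.Results.MP_12ef09_al.AbelianCounterexample
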